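import Mathlib
import Pool.Agent.Y444.SubInf

set_option autoImplicit false

universe u

namespace Pool.Agent.Results.MP_03f7b8_gt.SubinfiniteRank

open Set TopologicalSpace

/-- No member of the family is contained in another member. -/
def Incomparable {X : Type u} (Γ : Set (Set X)) : Prop := ∀ A ∈ Γ, ∀ B ∈ Γ, A ≠ B → ¬ A ⊆ B

/-- Every incomparable subfamily with nonempty intersection is finite. -/
def HasSubinfiniteRank {X : Type u} (Γ : Set (Set X)) : Prop :=
  ∀ Γ' ⊆ Γ, Incomparable Γ' → (⋂₀ Γ').Nonempty → Γ'.Finite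

/-- Every open cover has a point-finite open refinement. -/
def Metacompact (X : Type u) [TopologicalSpace X] : Prop :=
  ∀ 𝒰 : Set (Set X), (∀ U ∈ 𝒰, IsOpen U) → ⋃₀ 𝒰 = univ →
    ∃ 𝒱 : Set (Set X), (∀ V ∈ 𝒱, IsOpen V ∧ ∃ U ∈ 𝒰, V ⊆ U) ∧ ⋃₀ 𝒱 = univ ∧
      ∀ x, {V | V ∈ 𝒱 ∧ x ∈ V}.Finite

theorem noAnti_of {X : Type u} {B : Set (Set X)} (hB : HasSubinfiniteRank B) (x : X) :
    Pool.Agent.Y444.SubInf.NoAnti {A | A ∈ B ∧ x ∈ A} := by
  intro f hf h
  have hinj : Function.Injective f := by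
    intro m n hmn
    by_contra hne
    exact h m n hne hmn.subset
  have hfin : (range f).Finite := by
    refine hB _ (by rintro _ ⟨n, rfl⟩; exact (hf n).1) ?_ ⟨x, ?_⟩
    · rintro _ ⟨m, rfl⟩ _ ⟨n, rfl⟩ hne
      exact h m n fun e => hne (by rw [e])
    · rintro _ ⟨n, rfl⟩
      exact (hf n).2
  exact (infinite_range_of_injective hinj) hfin

theorem metacompact_of {X : Type u} [TopologicalSpace X] [T1Space X] {B : Set (Set X)}
    (hB : IsTopologicalBasis B) (hr : HasSubinfiniteRank B) : Metacompact X :=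
  fun 𝒰 hU hcov => Pool.Agent.Y444.SubInf.main hB (noAnti_of hr) 𝒰 hU hcov

/-- Traces of a family on a subset. -/
theorem subspace {X : Type u} [TopologicalSpace X] {B : Set (Set X)}
    (hB : IsTopologicalBasis B) (hr : HasSubinfiniteRank B) (S : Set X) :
    ∃ B' : Set (Set S), IsTopologicalBasis B' ∧ HasSubinfiniteRank B' := by
  refine ⟨(fun A : Set X => ((↑) : S → X) ⁻¹' A) '' B, ?_, ?_⟩
  · refine isTopologicalBasis_of_isOpen_of_nhds ?_ ?_
    · rintro _ ⟨A, hA, rfl⟩
      exact (hB.isOpen hA).preimage continuous_subtype_val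
    · rintro x U hx hU
      obtain ⟨O, hO, rfl⟩ := isOpen_induced_iff.1 hU
      obtain ⟨A, hA, hxA, hAO⟩ := hB.exists_subset_of_mem_open hx hO
      exact ⟨_, ⟨A, hA, rfl⟩, hxA, preimage_mono hAO⟩
  · rintro Γ' hΓ hinc ⟨x, hx⟩
    choose! g hg1 hg2 using hΓ
    have hfin : (g '' Γ').Finite := by
      refine hr _ (by rintro _ ⟨A, hA, rfl⟩; exact hg1 hA) ?_ ⟨x, ?_⟩
      · rintro _ ⟨A, hA, rfl⟩ _ ⟨D, hD, rfl⟩ hne hsub
        have h1 : A ⊆ D := by
          rw [← hg2 hA, ← hg2 hD]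
          exact preimage_mono hsub
        exact hinc A hA D hD (fun e => hne (by rw [e])) h1
      · rintro _ ⟨A, hA, rfl⟩
        have : x ∈ A := hx A hA
        rw [← hg2 hA] at this
        exact this
    refine Set.Finite.of_finite_image hfin ?_
    intro A hA D hD h
    rw [← hg2 hA, ← hg2 hD]
    exact congrArg _ h

/-- Every `T1` space with a base of subinfinite rank is metacompact, and so are its subspaces; the
`T1` axiom cannot be dropped: some `T0` space has a base of subinfinite rank (in fact a base that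
is totally ordered by inclusion) and is not metacompact. -/
theorem result :
    (∀ (X : Type u) [TopologicalSpace X] [T1Space X] (B : Set (Set X)),
      IsTopologicalBasis B → HasSubinfiniteRank B → Metacompact X ∧ ∀ S : Set X, Metacompact S) ∧
    ∃ (X : Type) (_ : TopologicalSpace X), T0Space X ∧
      (∃ B : Set (Set X), IsTopologicalBasis B ∧ HasSubinfiniteRank B) ∧ ¬ Metacompact X := by
  constructor
  · intro X _ _ B hB hr
    refine ⟨metacompact_of hB hr, fun S => ?_⟩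
    obtain ⟨B', h1, h2⟩ := subspace hB hr S
    exact metacompact_of h1 h2
  · let t : TopologicalSpace ℕ :=
      { IsOpen := fun s => IsLowerSet s
        isOpen_univ := isLowerSet_univ
        isOpen_inter := fun s u hs hu => hs.inter hu
        isOpen_sUnion := fun S hS => isLowerSet_sUnion hS }
    have hopen : ∀ s : Set ℕ, @IsOpen ℕ t s ↔ IsLowerSet s := fun s => Iff.rfl
    have hIic : ∀ n : ℕ, @IsOpen ℕ t (Set.Iic n) := fun n => isLowerSet_Iic n
    refine ⟨ℕ, t, ?_, ⟨Set.range Set.Iic, ?_, ?_⟩, ?_⟩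
    · refine @T0Space.mk ℕ t fun x y hxy => ?_
      have h1 := (@inseparable_iff_forall_isOpen ℕ t x y).1 hxy (Set.Iic x) (hIic x)
      have h2 := (@inseparable_iff_forall_isOpen ℕ t x y).1 hxy (Set.Iic y) (hIic y)
      exact le_antisymm (h2.2 (Set.mem_Iic.2 le_rfl)) (h1.1 (Set.mem_Iic.2 le_rfl))
    · refine @TopologicalSpace.isTopologicalBasis_of_isOpen_of_nhds ℕ t _ ?_ ?_
      · rintro _ ⟨n, rfl⟩
        exact hIic n
      · intro a u ha hu
        exact ⟨Set.Iic a, ⟨a, rfl⟩, Set.mem_Iic.2 le_rfl, fun b hb => (hopen u).1 hu hb ha⟩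
    · intro Γ' hΓ hinc _
      refine Set.Subsingleton.finite ?_
      intro A hA D hD
      by_contra hne
      obtain ⟨m, rfl⟩ := hΓ hA
      obtain ⟨n, rfl⟩ := hΓ hD
      rcases le_total m n with h | h
      · exact hinc _ hA _ hD hne (Set.Iic_subset_Iic.2 h)
      · exact hinc _ hD _ hA (Ne.symm hne) (Set.Iic_subset_Iic.2 h)
    · intro hM
      obtain ⟨𝒱, h1, h2, h3⟩ := hM (Set.range Set.Iic) (by rintro _ ⟨n, rfl⟩; exact hIic n) (by
        rw [eq_univ_iff_forall]
        intro n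
        exact ⟨Set.Iic n, ⟨n, rfl⟩, Set.mem_Iic.2 le_rfl⟩)
      have hfin := h3 0
      -- all nonempty members contain `0`
      have hbd : ∀ V ∈ {V | V ∈ 𝒱 ∧ 0 ∈ V}, ∃ n : ℕ, V ⊆ Set.Iic n := by
        rintro V ⟨hV, -⟩
        obtain ⟨U, ⟨n, rfl⟩, hVU⟩ := (h1 V hV).2
        exact ⟨n, hVU⟩
      choose! N hN using hbd
      obtain ⟨M, hM⟩ := (hfin.image N).bddAbove
      have hx : M + 1 ∈ ⋃₀ 𝒱 := by rw [h2]; trivial
      obtain ⟨V, hV, hxV⟩ := hx
      have h0 : 0 ∈ V := (hopen V).1 (h1 V hV).1 (Nat.zero_le _) hxV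
      have h4 : M + 1 ≤ N V := hN V ⟨hV, h0⟩ hxV
      have h5 : N V ≤ M := hM ⟨V, ⟨hV, h0⟩, rfl⟩
      omega

end Pool.Agent.Results.MP_03f7b8_gt.SubinfiniteRank
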